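import Pool.Agent.Q218.PF.Per

/-!
# The permanent of a random matrix over a finite field of odd order is equidistributed

Let `F` be a finite field with `q` elements, `q` odd, and let `A_n` be a uniformly random `n × n`
matrix over `F`.  For every `a` in `F` the probability that `per A_n = a` is `1/q + O(log n / n)`; in
particular `Pr[per A_n = 0] → 1/q`.

**Proof.**  Let `R_n = F[x_1, …, x_n] / (x_1 ^ 2, …, x_n ^ 2)`.  The product of the `n` linear forms
given by the columns of `A_n` is `per A_n · x_1 ⋯ x_n`.  Let `p(n, k)` be the probability that the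
product of `k` random linear forms vanishes in `R_n`.  Then the distribution of `per A_n` is the
mixture of the uniform distribution (weight `1 - p(n, n - 1)`) and of the point mass at `0`.

Let `P` be the product of `k` random linear forms, let `K` be the space of the linear forms which
annihilate `P`, and let `κ` be its codimension, so that `p(n, k + 1) = E q ^ (-κ)`.

* The form `x_i - x_j` is in `K` with probability `p(n - 1, k)`: the map `x_i ↦ -x_j` gives
  `R_n / (x_i + x_j) = R_(n-1)`, and the annihilator of `x_i - x_j` is the ideal of `x_i + x_j`.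
* If `P ≠ 0` and `k ≤ n - 2`, then, as `2 ≠ 0`, there is a nonzero quadratic form on the quotient by
  `K` (a coefficient of `ℓ ^ 2 P`) which vanishes at all the `x_i`, because `x_i ^ 2 = 0`.  So the
  `x_i` have at most `2 q ^ (κ - 1)` different classes modulo `K`, and the number of pairs `(i, j)`
  with `x_i - x_j` in `K` is at least `n ^ 2 q ^ (-κ) · q / 2`.
* Taking expectations,
  `q p(n, k + 1) ≤ 2 / n + 2 (1 - 1 / n) p(n - 1, k) + (q - 2) p(n, k)` for `k ≤ n - 2`.
* If `P ≠ 0`, then `κ ≥ n - k`, so that `p(n, n - s) ≤ q ^ (-s) / (q - 1)`.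

By induction `p(n, n - s) ≤ q ^ (-S) / (q - 1) + 2 (S - s) / ((q - 2) n)` for `1 ≤ s ≤ S`, and for
`s = 1` and `S = ⌊log_q n⌋ + 1` this is the theorem.
-/

set_option autoImplicit false

open Filter Topology

namespace Pool.Agent.Results.MP_b575e9_co.PermanentEquidistribution

/-- The probability that the permanent of a uniformly random `n × n` matrix over `F` is `a`. -/
noncomputable def prob (F : Type*) [Field F] [Finite F] (n : ℕ) (a : F) : ℝ :=
  (Nat.card {A : Matrix (Fin n) (Fin n) F // A.permanent = a} : ℝ) /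
    Nat.card (Matrix (Fin n) (Fin n) F)

/-- **Theorem.** For every finite field `F` with an odd number `q` of elements,
`Pr[per A_n = 0] → 1/q` as `n → ∞`; moreover, for all `n ≥ 1` and all `a` in `F`,
`|Pr[per A_n = a] - 1/q| ≤ (1 + 2 log_q n) / ((q - 2) n)`. -/
theorem result (F : Type*) [Field F] [Finite F] (hF : Odd (Nat.card F)) :
    Tendsto (fun n : ℕ => prob F n 0) atTop (𝓝 (1 / Nat.card F)) ∧
    ∀ n : ℕ, 1 ≤ n → ∀ a : F, |prob F n a - 1 / Nat.card F| ≤
      (1 + 2 * Real.logb (Nat.card F) n) / (((Nat.card F : ℝ) - 2) * n) := by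
  classical
  have := Fintype.ofFinite F
  rw [Nat.card_eq_fintype_card] at hF ⊢
  have h2 : (2 : F) ≠ 0 := by
    refine Ring.two_ne_zero fun h => ?_
    have h3 := FiniteField.even_card_iff_char_two.1 h
    have h4 := Nat.odd_iff.1 hF
    omega
  have hq3 : 3 ≤ Fintype.card F := by
    have h3 : 1 < Fintype.card F := Fintype.one_lt_card
    obtain ⟨m, hm⟩ := hF
    omega
  have hq3r : (3 : ℝ) ≤ Fintype.card F := by exact_mod_cast hq3
  generalize hq : Fintype.card F = q at hF hq3 hq3r ⊢
  have hprob : ∀ (n : ℕ) (a : F), prob F (n + 1) a =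
      (1 - Pool.Agent.Q218.PF.p F (n + 1) n) / q +
        if a = 0 then Pool.Agent.Q218.PF.p F (n + 1) n else 0 := by
    intro n a
    rw [← hq, ← Pool.Agent.Q218.PF.dist n a, prob, Nat.card_eq_fintype_card,
      Nat.card_eq_fintype_card, Fintype.card_subtype]
  have hb : ∀ n : ℕ, Pool.Agent.Q218.PF.p F (n + 1) n ≤
      (1 + 2 * Real.logb q ((n + 1 : ℕ) : ℝ)) / (((q : ℝ) - 2) * ((n + 1 : ℕ) : ℝ)) := by
    intro n
    have h1 := Pool.Agent.Q218.PF.bound F h2 (by rw [hq]; exact hq3r) (Nat.log q (n + 1) + 1)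
      (n + 1) (Nat.log q (n + 1)) 1 rfl le_rfl (by omega)
    rw [Nat.add_sub_cancel, hq] at h1
    refine h1.trans ?_
    have hn : (0 : ℝ) < ((n + 1 : ℕ) : ℝ) := by positivity
    have hq2 : 0 < (q : ℝ) - 2 := by linarith
    have hq1 : 0 < (q : ℝ) - 1 := by linarith
    rw [add_div]
    refine add_le_add ?_ ?_
    · refine one_div_le_one_div_of_le (by positivity) ?_
      have h3 : n + 1 < q ^ (Nat.log q (n + 1) + 1) := Nat.lt_pow_succ_log_self (by omega) _
      have h4 : ((n + 1 : ℕ) : ℝ) ≤ (q : ℝ) ^ (Nat.log q (n + 1) + 1) := by exact_mod_cast h3.le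
      calc ((q : ℝ) - 2) * ((n + 1 : ℕ) : ℝ) ≤ ((q : ℝ) - 1) * ((n + 1 : ℕ) : ℝ) := by
            gcongr
            linarith
        _ ≤ ((q : ℝ) - 1) * (q : ℝ) ^ (Nat.log q (n + 1) + 1) := by gcongr
    · have h5 : (Nat.log q (n + 1) : ℝ) ≤ Real.logb q ((n + 1 : ℕ) : ℝ) :=
        Real.natLog_le_logb (n + 1) q
      gcongr
  have hmain : ∀ n : ℕ, 1 ≤ n → ∀ a : F, |prob F n a - 1 / q| ≤
      (1 + 2 * Real.logb q n) / (((q : ℝ) - 2) * n) := by
    intro n hn a
    obtain ⟨m, rfl⟩ : ∃ m, n = m + 1 := ⟨n - 1, by omega⟩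
    refine le_trans ?_ (hb m)
    have hp := Pool.Agent.Q218.PF.p_nonneg F (m + 1) m
    have hq0 : (0 : ℝ) < q := by linarith
    have h6 : 0 ≤ Pool.Agent.Q218.PF.p F (m + 1) m / q := by positivity
    have h7 : Pool.Agent.Q218.PF.p F (m + 1) m / q ≤ Pool.Agent.Q218.PF.p F (m + 1) m :=
      div_le_self hp (by linarith)
    rw [hprob, sub_div, abs_le]
    split_ifs
    · constructor <;> linarith
    · constructor <;> linarith
  refine ⟨?_, hmain⟩
  have hlim : Tendsto (fun n : ℕ => (1 + 2 * Real.logb q n) / (((q : ℝ) - 2) * n)) atTop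
      (𝓝 0) := by
    have h1 : Tendsto (fun n : ℕ => Real.log n / n) atTop (𝓝 0) :=
      (Real.isLittleO_log_id_atTop.tendsto_div_nhds_zero).comp tendsto_natCast_atTop_atTop
    have h3 : Tendsto (fun n : ℕ => (1 : ℝ) / n) atTop (𝓝 0) := tendsto_one_div_atTop_nhds_zero_nat
    have h4 : Tendsto (fun n : ℕ => 1 / ((q : ℝ) - 2) * ((1 : ℝ) / n) +
        2 / (((q : ℝ) - 2) * Real.log q) * (Real.log n / n)) atTop
        (𝓝 (1 / ((q : ℝ) - 2) * 0 + 2 / (((q : ℝ) - 2) * Real.log q) * 0)) :=
      (h3.const_mul _).add (h1.const_mul _)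
    rw [mul_zero, mul_zero, add_zero] at h4
    refine h4.congr fun n => ?_
    rw [Real.logb]
    have hl : Real.log q ≠ 0 := (Real.log_pos (by linarith)).ne'
    have hq2 : (q : ℝ) - 2 ≠ 0 := by
      have : 0 < (q : ℝ) - 2 := by linarith
      exact this.ne'
    rcases eq_or_ne (n : ℝ) 0 with h0 | h0
    · rw [h0]
      simp
    · field_simp
  have h8 : Tendsto (fun n : ℕ => prob F n 0 - 1 / q) atTop (𝓝 0) := by
    refine squeeze_zero_norm' ?_ hlim
    filter_upwards [eventually_ge_atTop 1] with n hn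
    exact hmain n hn 0
  have h9 := h8.add_const (1 / (q : ℝ))
  simpa using h9

end Pool.Agent.Results.MP_b575e9_co.PermanentEquidistribution
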